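import Mathlib

set_option autoImplicit false
open scoped Classical

namespace Pool.Agent.Lib_f2f003

variable {α : Type*}

/-- weight of an ordering `l` in size-biased sampling without replacement. -/
noncomputable def wt (w : α → ℝ) (l : List α) : ℝ :=
  ∏ t ∈ Finset.range l.length,
    (if 0 < ((l.drop t).map w).sum
      then (((l.drop t).take 1).map w).sum / ((l.drop t).map w).sum
      else 1 / ((l.drop t).length : ℝ))

lemma wt_nil (w : α → ℝ) : wt w ([] : List α) = 1 := by simp [wt]

lemma wt_cons (w : α → ℝ) (a : α) (l : List α) :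
    wt w (a :: l) = (if 0 < w a + (l.map w).sum then w a / (w a + (l.map w).sum)
      else 1 / ((l.length : ℝ) + 1)) * wt w l := by
  unfold wt
  rw [List.length_cons, Finset.prod_range_succ', mul_comm]
  simp

/-- all orderings of `S`. -/
noncomputable def perms (S : Finset α) : Finset (List α) := S.toList.permutations.toFinset

lemma mem_perms (S : Finset α) (l : List α) :
    l ∈ perms S ↔ l.Nodup ∧ ∀ a, a ∈ l ↔ a ∈ S := by
  unfold perms
  rw [List.mem_toFinset, List.mem_permutations]
  constructor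
  · intro h
    refine ⟨h.nodup_iff.2 S.nodup_toList, fun a => ?_⟩
    rw [h.mem_iff, Finset.mem_toList]
  · rintro ⟨h1, h2⟩
    rw [List.perm_ext_iff_of_nodup h1 S.nodup_toList]
    intro a
    rw [h2, Finset.mem_toList]

lemma sum_map_perms (w : α → ℝ) (S : Finset α) (l : List α) (h : l ∈ perms S) :
    (l.map w).sum = ∑ a ∈ S, w a := by
  rw [mem_perms] at h
  have : S = l.toFinset := by
    ext a; rw [List.mem_toFinset, h.2]
  rw [this, List.sum_toFinset _ h.1]

lemma length_perms (S : Finset α) (l : List α) (h : l ∈ perms S) :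
    l.length = S.card := by
  rw [mem_perms] at h
  have : S = l.toFinset := by
    ext a; rw [List.mem_toFinset, h.2]
  rw [this, List.toFinset_card_of_nodup h.1]

lemma sum_perms (S : Finset α) (hS : S.Nonempty) (G : List α → ℝ) :
    ∑ l ∈ perms S, G l = ∑ a ∈ S, ∑ l ∈ perms (S.erase a), G (a :: l) := by
  rw [Finset.sum_sigma']
  symm
  refine Finset.sum_bij (fun x _ => x.1 :: x.2) ?_ ?_ ?_ ?_
  · rintro ⟨a, l⟩ h
    rw [Finset.mem_sigma] at h
    obtain ⟨ha, hl⟩ := h
    simp only at ha hl ⊢
    rw [mem_perms] at hl ⊢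
    refine ⟨?_, ?_⟩
    · rw [List.nodup_cons]
      refine ⟨?_, hl.1⟩
      rw [hl.2]
      simp
    · intro b
      rw [List.mem_cons, hl.2, Finset.mem_erase]
      constructor
      · rintro (rfl | h)
        · exact ha
        · exact h.2
      · intro hb
        by_cases hba : b = a
        · exact Or.inl hba
        · exact Or.inr ⟨hba, hb⟩
  · rintro ⟨a, l⟩ _ ⟨b, l'⟩ _ h
    simp only [List.cons.injEq] at h
    obtain ⟨h1, h2⟩ := h
    subst h1; subst h2; rfl
  · intro l hl
    rw [mem_perms] at hl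
    cases l with
    | nil =>
      exfalso
      obtain ⟨a, ha⟩ := hS
      have := (hl.2 a).2 ha
      simp at this
    | cons a l =>
      have hnd := List.nodup_cons.1 hl.1
      refine ⟨⟨a, l⟩, ?_, rfl⟩
      rw [Finset.mem_sigma]
      refine ⟨(hl.2 a).1 (by simp), ?_⟩
      simp only
      rw [mem_perms]
      refine ⟨hnd.2, fun b => ?_⟩
      rw [Finset.mem_erase, ← hl.2, List.mem_cons]
      constructor
      · intro hb
        refine ⟨?_, Or.inr hb⟩
        rintro rfl
        exact hnd.1 hb
      · rintro ⟨h1, h2 | h2⟩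
        · exact absurd h2 h1
        · exact h2
  · rintro ⟨a, l⟩ _
    rfl

/-- first-step factor -/
noncomputable def fac (w : α → ℝ) (S : Finset α) (a : α) : ℝ :=
  if 0 < ∑ b ∈ S, w b then w a / ∑ b ∈ S, w b else 1 / (S.card : ℝ)

lemma wt_cons_perms (w : α → ℝ) (S : Finset α) (a : α) (ha : a ∈ S) (l : List α)
    (hl : l ∈ perms (S.erase a)) : wt w (a :: l) = fac w S a * wt w l := by
  rw [wt_cons, sum_map_perms w _ l hl, length_perms _ l hl, Finset.add_sum_erase _ _ ha,
    Finset.card_erase_of_mem ha]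
  unfold fac
  have : 0 < S.card := Finset.card_pos.2 ⟨a, ha⟩
  have h2 : ((S.card - 1 : ℕ) : ℝ) + 1 = S.card := by
    rw [Nat.cast_sub (by omega)]; simp
  rw [h2]

lemma sum_fac (w : α → ℝ) (S : Finset α) (hS : S.Nonempty) : ∑ a ∈ S, fac w S a = 1 := by
  unfold fac
  by_cases h : 0 < ∑ b ∈ S, w b
  · simp only [h, if_true]
    rw [← Finset.sum_div]
    exact div_self h.ne'
  · simp only [h, if_false]
    rw [Finset.sum_const, nsmul_eq_mul]
    have : (S.card : ℝ) ≠ 0 := by
      have := Finset.card_pos.2 hS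
      positivity
    field_simp

lemma perms_empty : perms (∅ : Finset α) = {[]} := by
  ext l
  rw [mem_perms]
  simp only [Finset.notMem_empty, iff_false, Finset.mem_singleton]
  constructor
  · rintro ⟨_, h⟩
    exact List.eq_nil_iff_forall_not_mem.2 h
  · rintro rfl
    simp

lemma sum_wt (w : α → ℝ) : ∀ (n : ℕ) (S : Finset α), S.card = n → ∑ l ∈ perms S, wt w l = 1 := by
  intro n
  induction n with
  | zero =>
    intro S hS
    rw [Finset.card_eq_zero] at hS
    subst hS
    rw [perms_empty]
    simp [wt_nil]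
  | succ n ih =>
    intro S hS
    have hne : S.Nonempty := Finset.card_pos.1 (by omega)
    rw [sum_perms S hne]
    have : ∀ a ∈ S, ∑ l ∈ perms (S.erase a), wt w (a :: l) = fac w S a := by
      intro a ha
      rw [Finset.sum_congr rfl (fun l hl => wt_cons_perms w S a ha l hl), ← Finset.mul_sum,
        ih (S.erase a) (by rw [Finset.card_erase_of_mem ha]; omega), mul_one]
    rw [Finset.sum_congr rfl this, sum_fac w S hne]

lemma wt_nonneg (w : α → ℝ) (hw : ∀ a, 0 ≤ w a) (l : List α) : 0 ≤ wt w l := by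
  unfold wt
  refine Finset.prod_nonneg fun t _ => ?_
  split_ifs with h
  · refine div_nonneg ?_ h.le
    refine List.sum_nonneg ?_
    intro x hx
    rw [List.mem_map] at hx
    obtain ⟨a, _, rfl⟩ := hx
    exact hw a
  · positivity

/-- all the fast items come first, except with probability at most `|A| ε`. -/
lemma fast_first (w : α → ℝ) (hw : ∀ a, 0 ≤ w a) (ε : ℝ) (hε : 0 ≤ ε) (B : Finset α) :
    ∀ (m : ℕ) (A : Finset α), A.card = m → Disjoint A B →
      (∀ a ∈ A, 0 < w a ∧ ∑ b ∈ B, w b ≤ ε * w a) →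
      1 - m * ε ≤ ∑ l ∈ (perms (A ∪ B)).filter (fun l => ∀ x ∈ l.take m, x ∈ A), wt w l := by
  intro m
  induction m with
  | zero =>
    intro A hA _ _
    rw [Finset.filter_true_of_mem (by intro l _; simp), sum_wt w _ _ rfl]
    simp
  | succ m ih =>
    intro A hA hAB hfast
    have hAne : A.Nonempty := Finset.card_pos.1 (by omega)
    have hne : (A ∪ B).Nonempty := hAne.mono Finset.subset_union_left
    by_cases hε1 : 1 ≤ ε
    · refine le_trans ?_ (Finset.sum_nonneg fun l _ => wt_nonneg w hw l)
      have : (0:ℝ) ≤ m := by positivity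
      push_cast
      nlinarith
    push Not at hε1
    rw [Finset.sum_filter, sum_perms _ hne]
    -- restrict to first element in A
    have hsub : ∑ a ∈ A, ∑ l ∈ perms ((A ∪ B).erase a),
          (if ∀ x ∈ (a :: l).take (m+1), x ∈ A then wt w (a :: l) else 0) ≤
        ∑ a ∈ A ∪ B, ∑ l ∈ perms ((A ∪ B).erase a),
          (if ∀ x ∈ (a :: l).take (m+1), x ∈ A then wt w (a :: l) else 0) := by
      refine Finset.sum_le_sum_of_subset_of_nonneg Finset.subset_union_left ?_
      intro a _ _
      refine Finset.sum_nonneg fun l _ => ?_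
      split_ifs
      · exact wt_nonneg w hw _
      · exact le_rfl
    refine le_trans ?_ (le_trans hsub (le_of_eq (Finset.sum_congr rfl fun _ _ =>
      Finset.sum_congr rfl fun _ _ => by congr)))
    have hA0 : 0 < ∑ a ∈ A, w a := Finset.sum_pos (fun a ha => (hfast a ha).1) hAne
    have hBn : 0 ≤ ∑ b ∈ B, w b := Finset.sum_nonneg fun b _ => hw b
    have hSum : ∑ b ∈ A ∪ B, w b = ∑ a ∈ A, w a + ∑ b ∈ B, w b := Finset.sum_union hAB
    have hpos : 0 < ∑ b ∈ A ∪ B, w b := by rw [hSum]; linarith
    have key : ∀ a ∈ A, fac w (A ∪ B) a * (1 - m * ε) ≤ ∑ l ∈ perms ((A ∪ B).erase a),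
          (if ∀ x ∈ (a :: l).take (m+1), x ∈ A then wt w (a :: l) else 0) := by
      intro a ha
      have haU : a ∈ A ∪ B := Finset.mem_union_left _ ha
      have haB : a ∉ B := Finset.disjoint_left.1 hAB ha
      have hE : (A ∪ B).erase a = A.erase a ∪ B := by
        ext x
        simp only [Finset.mem_erase, Finset.mem_union]
        constructor
        · rintro ⟨h1, h2 | h2⟩
          · exact Or.inl ⟨h1, h2⟩
          · exact Or.inr h2
        · rintro (⟨h1, h2⟩ | h2)
          · exact ⟨h1, Or.inl h2⟩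
          · exact ⟨fun h => haB (h ▸ h2), Or.inr h2⟩
      have ih' := ih (A.erase a) (by rw [Finset.card_erase_of_mem ha]; omega)
        (hAB.mono_left (Finset.erase_subset _ _))
        (fun x hx => hfast x (Finset.mem_of_mem_erase hx))
      rw [← hE, Finset.sum_filter] at ih'
      have hfac : 0 ≤ fac w (A ∪ B) a := by
        unfold fac
        rw [if_pos hpos]
        exact div_nonneg (hw a) hpos.le
      refine le_trans (mul_le_mul_of_nonneg_left ih' hfac) ?_
      rw [Finset.mul_sum]
      refine Finset.sum_le_sum fun l hl => ?_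
      rw [wt_cons_perms w _ a haU l hl]
      by_cases hc : ∀ x ∈ l.take m, x ∈ A.erase a
      · rw [if_pos hc, if_pos]
        intro x hx
        rw [List.take_succ_cons, List.mem_cons] at hx
        rcases hx with rfl | hx
        · exact ha
        · exact Finset.mem_of_mem_erase (hc x hx)
      · rw [if_neg hc, mul_zero]
        split_ifs
        · exact mul_nonneg hfac (wt_nonneg w hw l)
        · exact le_rfl
    refine le_trans ?_ (Finset.sum_le_sum key)
    rw [← Finset.sum_mul]
    have hsf : 1 - ε ≤ ∑ a ∈ A, fac w (A ∪ B) a := by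
      unfold fac
      simp only [hpos, if_true]
      rw [← Finset.sum_div, hSum, le_div_iff₀ (by linarith)]
      obtain ⟨a, ha⟩ := hAne
      have h1 : ∑ b ∈ B, w b ≤ ε * w a := (hfast a ha).2
      have h2 : w a ≤ ∑ a ∈ A, w a := Finset.single_le_sum (f := w) (fun i _ => hw i) ha
      nlinarith
    have hsf1 : ∑ a ∈ A, fac w (A ∪ B) a ≤ 1 := by
      have := sum_fac w (A ∪ B) hne
      rw [← this]
      refine Finset.sum_le_sum_of_subset_of_nonneg Finset.subset_union_left ?_
      intro a _ _
      unfold fac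
      rw [if_pos hpos]
      exact div_nonneg (hw a) hpos.le
    have hsf0 : 0 ≤ ∑ a ∈ A, fac w (A ∪ B) a := by linarith
    by_cases hm : (m : ℝ) * ε ≤ 1
    · push_cast
      have h3 : (1 - ε) * (1 - m * ε) ≤ (∑ a ∈ A, fac w (A ∪ B) a) * (1 - m * ε) :=
        mul_le_mul_of_nonneg_right hsf (by linarith)
      have h4 : 0 ≤ ε * (m * ε) := by positivity
      nlinarith
    · push Not at hm
      have h5 : (1 - m * ε) ≤ (∑ a ∈ A, fac w (A ∪ B) a) * (1 - m * ε) := by nlinarith
      push_cast
      nlinarith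

lemma fast_first' (w : α → ℝ) (hw : ∀ a, 0 ≤ w a) (ε : ℝ) (hε : 0 ≤ ε) (A B U : Finset α)
    (hU : ∀ x, x ∈ U ↔ x ∈ A ∨ x ∈ B) (hAB : Disjoint A B)
    (h : ∀ a ∈ A, 0 < w a ∧ ∑ b ∈ B, w b ≤ ε * w a) :
    1 - A.card * ε ≤ ∑ l ∈ (perms U).filter (fun l => ∀ x ∈ l.take A.card, x ∈ A), wt w l := by
  have : U = A ∪ B := by ext x; rw [hU, Finset.mem_union]
  subst this
  exact fast_first w hw ε hε B _ A rfl hAB h

end Pool.Agent.Lib_f2f003
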