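import Mathlib
import Pool.Agent.Lib_f2f003.Perm

set_option autoImplicit false
open scoped Classical

namespace Pool.Agent.Lib_f2f003

/-- all pairs `i < j`. -/
noncomputable def pairs (n : ℕ) : Finset (Fin n × Fin n) :=
  (Finset.univ : Finset (Fin n × Fin n)).filter (fun p => p.1 < p.2)

/-- the graph of the pairs listed in `l`. -/
def gr {n : ℕ} (l : List (Fin n × Fin n)) : SimpleGraph (Fin n) :=
  SimpleGraph.fromRel (fun i j : Fin n => (i, j) ∈ l)

/-- times at which the graph is `K`-connected. -/
def fset (n K : ℕ) (l : List (Fin n × Fin n)) : Set ℕ :=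
  {t : ℕ | t ≤ l.length ∧ K < n ∧ ∀ S : Finset (Fin n), S.card < K →
                ((SimpleGraph.fromRel (fun i j : Fin n => (i, j) ∈ l.take t)).induce
                  ((↑S : Set (Fin n))ᶜ)).Connected}

/-- times at which the minimum degree is at least `K`. -/
def gset (n K : ℕ) (l : List (Fin n × Fin n)) : Set ℕ :=
  {t : ℕ | t ≤ l.length ∧ ∀ v : Fin n,
                K ≤ (SimpleGraph.fromRel (fun i j : Fin n => (i, j) ∈ l.take t)).degree v}

lemma reach_inv {V : Type*} (G : SimpleGraph V) (P : V → Prop)
    (h : ∀ a b, G.Adj a b → P a → P b) {a b : V} (hr : G.Reachable a b) : P a → P b := by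
  obtain ⟨p⟩ := hr
  induction p with
  | nil => exact id
  | cons hadj _ ih => exact fun ha => ih (h _ _ hadj ha)

/-- `p` crosses between `{u,v}` and its complement. -/
def Cross {n : ℕ} (u v : Fin n) (p : Fin n × Fin n) : Prop :=
  ¬ ((p.1 = u ∨ p.1 = v) ↔ (p.2 = u ∨ p.2 = v))

/-- the pairs that do not cross -/
noncomputable def fastA {n : ℕ} (u v : Fin n) : Finset (Fin n × Fin n) :=
  (pairs n).filter (fun p => ¬ Cross u v p)

/-- the pairs that cross -/
noncomputable def slowB {n : ℕ} (u v : Fin n) : Finset (Fin n × Fin n) :=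
  (pairs n).filter (fun p => Cross u v p)

lemma fast_union_slow {n : ℕ} (u v : Fin n) : fastA u v ∪ slowB u v = pairs n := by
  ext p
  unfold fastA slowB
  simp only [Finset.mem_union, Finset.mem_filter]
  by_cases h : Cross u v p
  · simp [h]
  · simp [h]

lemma fast_disj_slow {n : ℕ} (u v : Fin n) : Disjoint (fastA u v) (slowB u v) := by
  rw [Finset.disjoint_left]
  intro p h1 h2
  unfold fastA at h1
  unfold slowB at h2
  simp only [Finset.mem_filter] at h1 h2
  exact h1.2 h2.2

lemma mem_take_fast {n : ℕ} {u v : Fin n} {l : List (Fin n × Fin n)} (hl : l ∈ perms (pairs n))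
    (hfast : ∀ x ∈ l.take (fastA u v).card, x ∈ fastA u v) (p : Fin n × Fin n) :
    p ∈ l.take (fastA u v).card ↔ p ∈ fastA u v := by
  have hnd : (l.take (fastA u v).card).Nodup := ((mem_perms _ _).1 hl).1.sublist (List.take_sublist _ _)
  have hlen : (l.take (fastA u v).card).length = (fastA u v).card := by
    rw [List.length_take, length_perms _ _ hl, min_eq_left]
    rw [← fast_union_slow u v]
    exact Finset.card_le_card Finset.subset_union_left
  have : (l.take (fastA u v).card).toFinset = fastA u v := by
    refine Finset.eq_of_subset_of_card_le ?_ ?_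
    · intro x hx
      rw [List.mem_toFinset] at hx
      exact hfast x hx
    · rw [List.toFinset_card_of_nodup hnd, hlen]
  rw [← List.mem_toFinset, this]

lemma hitting_ne {n : ℕ} (hn : 4 ≤ n) {u v : Fin n} (huv : u < v) {l : List (Fin n × Fin n)}
    (hl : l ∈ perms (pairs n))
    (hfast : ∀ x ∈ l.take (fastA u v).card, x ∈ fastA u v) :
    sInf (fset n 1 l) ≠ sInf (gset n 1 l) := by
  have hmem := mem_take_fast hl hfast
  have hlen : (fastA u v).card ≤ l.length := by
    rw [length_perms _ _ hl, ← fast_union_slow u v]
    exact Finset.card_le_card Finset.subset_union_left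
  have hlmem : ∀ p, p ∈ l ↔ p.1 < p.2 := by
    intro p
    rw [((mem_perms _ _).1 hl).2]
    simp [pairs]
  -- minimum degree is at least one at time |A|
  have hg : (fastA u v).card ∈ gset n 1 l := by
    refine ⟨hlen, fun z => ?_⟩
    rw [Nat.one_le_iff_ne_zero, ← Nat.pos_iff_ne_zero, SimpleGraph.degree_pos_iff_exists_adj]
    by_cases hz : z = u ∨ z = v
    · rcases hz with rfl | rfl
      · refine ⟨v, ?_⟩
        rw [SimpleGraph.fromRel_adj]
        refine ⟨huv.ne, Or.inl ?_⟩
        rw [hmem]
        unfold fastA Cross
        simp [pairs, huv]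
      · refine ⟨u, ?_⟩
        rw [SimpleGraph.fromRel_adj]
        refine ⟨huv.ne', Or.inr ?_⟩
        rw [hmem]
        unfold fastA Cross
        simp [pairs, huv]
    · push Not at hz
      have hex : ∃ y : Fin n, y ∉ ({u, v, z} : Finset (Fin n)) := by
        by_contra hcon
        push Not at hcon
        have h1 : (Finset.univ : Finset (Fin n)) ⊆ {u, v, z} := fun y _ => hcon y
        have h2 := Finset.card_le_card h1
        have h3 : ({u, v, z} : Finset (Fin n)).card ≤ 3 := Finset.card_le_three
        rw [Finset.card_univ, Fintype.card_fin] at h2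
        omega
      obtain ⟨y, hy⟩ := hex
      simp only [Finset.mem_insert, Finset.mem_singleton, not_or] at hy
      obtain ⟨hyu, hyv, hyz⟩ := hy
      refine ⟨y, ?_⟩
      rw [SimpleGraph.fromRel_adj]
      refine ⟨fun h => hyz h.symm, ?_⟩
      rcases lt_or_gt_of_ne hyz with h | h
      · right
        rw [hmem]
        unfold fastA Cross
        simp [pairs, h, hyu, hyv, hz.1, hz.2]
      · left
        rw [hmem]
        unfold fastA Cross
        simp [pairs, h, hyu, hyv, hz.1, hz.2]
  -- not connected up to time |A|
  have hf : ∀ t ∈ fset n 1 l, (fastA u v).card < t := by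
    rintro t ⟨ht1, _, ht3⟩
    by_contra hcon
    push Not at hcon
    have hconn := ht3 ∅ (by simp)
    have hex : ∃ y : Fin n, y ∉ ({u, v} : Finset (Fin n)) := by
      by_contra hcon
      push Not at hcon
      have h1 : (Finset.univ : Finset (Fin n)) ⊆ {u, v} := fun y _ => hcon y
      have h2 := Finset.card_le_card h1
      have h3 : ({u, v} : Finset (Fin n)).card ≤ 2 := Finset.card_le_two
      rw [Finset.card_univ, Fintype.card_fin] at h2
      omega
    obtain ⟨y, hy⟩ := hex
    simp only [Finset.mem_insert, Finset.mem_singleton, not_or] at hy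
    have hr := hconn.preconnected ⟨u, by simp⟩ ⟨y, by simp⟩
    have := reach_inv _ (fun a => a.1 = u ∨ a.1 = v) ?_ hr (Or.inl rfl)
    · rcases this with h | h
      · exact hy.1 h
      · exact hy.2 h
    · rintro ⟨a, ha⟩ ⟨b, hb⟩ hadj hP
      simp only [SimpleGraph.comap_adj, SimpleGraph.fromRel_adj, Function.Embedding.subtype_apply] at hadj
      simp only at hP ⊢
      have hsub : ∀ p, p ∈ l.take t → ¬ Cross u v p := by
        intro p hp
        have : p ∈ l.take (fastA u v).card := by
          have h4 : l.take t = (l.take (fastA u v).card).take t := by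
            rw [List.take_take, min_eq_left hcon]
          rw [h4] at hp
          exact List.mem_of_mem_take hp
        rw [hmem] at this
        unfold fastA at this
        exact (Finset.mem_filter.1 this).2
      rcases hadj.2 with h | h
      · have := hsub _ h
        unfold Cross at this
        simp only [not_not] at this
        exact this.1 hP
      · have := hsub _ h
        unfold Cross at this
        simp only [not_not] at this
        exact this.2 hP
  have hfne : l.length ∈ fset n 1 l := by
    refine ⟨le_rfl, by omega, ?_⟩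
    intro S hS
    have hS0 : S = ∅ := by
      rw [← Finset.card_eq_zero]; omega
    subst hS0
    rw [List.take_length]
    have : Nonempty ((((∅ : Finset (Fin n)) : Set (Fin n))ᶜ : Set (Fin n))) := ⟨⟨u, by simp⟩⟩
    refine SimpleGraph.Connected.mk ?_
    rintro ⟨a, ha⟩ ⟨b, hb⟩
    by_cases hab : a = b
    · subst hab
      exact SimpleGraph.Reachable.refl _
    · refine SimpleGraph.Adj.reachable ?_
      simp only [SimpleGraph.comap_adj, SimpleGraph.fromRel_adj, Function.Embedding.subtype_apply, hlmem]
      exact ⟨hab, lt_or_gt_of_ne hab⟩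
  have h1 : sInf (fset n 1 l) ∈ fset n 1 l := Nat.sInf_mem ⟨_, hfne⟩
  have h2 : sInf (gset n 1 l) ≤ (fastA u v).card := Nat.sInf_le hg
  have h3 := hf _ h1
  omega

end Pool.Agent.Lib_f2f003
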