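import Mathlib
import Pool.Agent.Lib_f2f003.Perm
import Pool.Agent.Lib_f2f003.Graph

set_option autoImplicit false
open scoped Classical
open MeasureTheory

namespace Pool.Agent.Lib_f2f003

/-- the slow weights -/
noncomputable def cc (m : ℕ) : ℝ := (1 / 8 : ℝ) ^ (m ^ 2)

lemma cc_pos (m : ℕ) : 0 < cc m := by unfold cc; positivity

lemma cc_le_one (m : ℕ) : cc m ≤ 1 := by
  unfold cc
  exact pow_le_one₀ (by norm_num) (by norm_num)

lemma cc_anti {a b : ℕ} (h : a ≤ b) : cc b ≤ cc a := by
  unfold cc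
  exact pow_le_pow_of_le_one (by norm_num) (by norm_num) (Nat.pow_le_pow_left h 2)

lemma cc_succ (m : ℕ) : cc (m + 1) = (1 / 8 : ℝ) ^ (2 * m + 1) * cc m := by
  unfold cc
  rw [← pow_add]
  congr 1
  ring

/-- the graphon -/
noncomputable def WW (a b : ℕ) : ℝ := if a = b then 1 else cc (max a b)

lemma WW_symm (a b : ℕ) : WW a b = WW b a := by
  unfold WW
  simp only [eq_comm, max_comm]

lemma WW_pos (a b : ℕ) : 0 < WW a b := by
  unfold WW
  split_ifs
  · norm_num
  · exact cc_pos _

lemma WW_le_one (a b : ℕ) : WW a b ≤ 1 := by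
  unfold WW
  split_ifs
  · norm_num
  · exact cc_le_one _

/-- the integrand of the problem with `K = 1` -/
noncomputable def II (n : ℕ) (x : Fin n → ℕ) : ℝ :=
  ∑ l ∈ (perms (pairs n)).filter (fun l => sInf (fset n 1 l) = sInf (gset n 1 l)),
    wt (fun p => WW (x p.1) (x p.2)) l

lemma II_le_one (n : ℕ) (x : Fin n → ℕ) : II n x ≤ 1 := by
  unfold II
  rw [← sum_wt (fun p : Fin n × Fin n => WW (x p.1) (x p.2)) _ (pairs n) rfl]
  refine Finset.sum_le_sum_of_subset_of_nonneg (Finset.filter_subset _ _) ?_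
  intro l _ _
  exact wt_nonneg _ (fun p => (WW_pos _ _).le) l

lemma II_le_half {M n : ℕ} (hM : 1 ≤ M) (hn : n = 2 ^ (M + 1)) (x : Fin n → ℕ) (u v : Fin n)
    (huv : u < v) (hu : x u = M + 1) (hv : x v = M + 1)
    (hx : ∀ z, z ≠ u → z ≠ v → x z < M + 1) : II n x ≤ 1 / 2 := by
  set w : Fin n × Fin n → ℝ := fun p => WW (x p.1) (x p.2) with hw
  have hw0 : ∀ p, 0 ≤ w p := fun p => (WW_pos _ _).le
  have hn4 : 4 ≤ n := by
    rw [hn]
    calc 4 = 2 ^ 2 := by norm_num
      _ ≤ 2 ^ (M + 1) := Nat.pow_le_pow_right (by norm_num) (by omega)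
  have hall := sum_wt w _ (pairs n) rfl
  rw [← Finset.sum_filter_add_sum_filter_not (perms (pairs n))
    (fun l => sInf (fset n 1 l) = sInf (gset n 1 l))] at hall
  set ε : ℝ := (n : ℝ) ^ 2 * (1 / 8 : ℝ) ^ (2 * M + 1) with hε
  have hε0 : 0 ≤ ε := by positivity
  have hcardn : ∀ T : Finset (Fin n × Fin n), (T.card : ℝ) ≤ (n : ℝ) ^ 2 := by
    intro T
    have := Finset.card_le_univ T
    rw [Fintype.card_prod, Fintype.card_fin] at this
    have h2 : (T.card : ℝ) ≤ ((n * n : ℕ) : ℝ) := by exact_mod_cast this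
    rw [pow_two]
    exact_mod_cast h2
  have hfast := fast_first' w hw0 ε hε0 (fastA u v) (slowB u v) (pairs n)
    (fun x => by rw [← fast_union_slow u v, Finset.mem_union]) (fast_disj_slow u v) ?_
  · have hsub : ∑ l ∈ (perms (pairs n)).filter
          (fun l => ∀ x ∈ l.take (fastA u v).card, x ∈ fastA u v), wt w l ≤
        ∑ l ∈ (perms (pairs n)).filter (fun l => ¬ sInf (fset n 1 l) = sInf (gset n 1 l)),
          wt w l := by
      refine Finset.sum_le_sum_of_subset_of_nonneg ?_ ?_
      · intro l hl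
        rw [Finset.mem_filter] at hl ⊢
        exact ⟨hl.1, hitting_ne hn4 huv hl.1 hl.2⟩
      · intro l _ _
        exact wt_nonneg w hw0 l
    have hA : ((fastA u v).card : ℝ) * ε ≤ 1 / 2 := by
      calc ((fastA u v).card : ℝ) * ε ≤ (n : ℝ) ^ 2 * ((n : ℝ) ^ 2 * (1 / 8 : ℝ) ^ (2 * M + 1)) := by
            exact mul_le_mul_of_nonneg_right (hcardn _) hε0
        _ = 2 * (1 / 4 : ℝ) ^ M := by
            have : (n : ℝ) = 2 * 2 ^ M := by
              rw [hn]; push_cast; ring
            have h30 : (1 / 8 : ℝ) ^ (2 * M + 1) = (1 / 64) ^ M * (1 / 8) := by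
              rw [pow_succ, pow_mul]; norm_num
            rw [this, h30]
            have h4 : (2 * (2 : ℝ) ^ M) ^ 2 * ((2 * (2 : ℝ) ^ M) ^ 2 * ((1 / 64) ^ M * (1 / 8)))
                = 2 * ((2 ^ M) ^ 4 * (1 / 64 : ℝ) ^ M) := by ring
            rw [h4]
            congr 1
            rw [← pow_mul, mul_comm M 4, pow_mul, ← mul_pow]
            norm_num
        _ ≤ 2 * (1 / 4 : ℝ) ^ 1 := by
            refine mul_le_mul_of_nonneg_left ?_ (by norm_num)
            exact pow_le_pow_of_le_one (by norm_num) (by norm_num) hM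
        _ = 1 / 2 := by norm_num
    have hII : II n x = ∑ l ∈ (perms (pairs n)).filter
        (fun l => sInf (fset n 1 l) = sInf (gset n 1 l)), wt w l := rfl
    rw [hII]
    have hchain : (1 : ℝ) - (fastA u v).card * ε ≤
        ∑ l ∈ (perms (pairs n)).filter (fun l => ¬ sInf (fset n 1 l) = sInf (gset n 1 l)),
          wt w l := by
      refine le_trans hfast (le_trans (le_of_eq ?_) hsub)
      refine Finset.sum_congr ?_ fun _ _ => rfl
      congr
    linarith
  · intro p hp
    refine ⟨WW_pos _ _, ?_⟩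
    have hB : ∀ b ∈ slowB u v, w b = cc (M + 1) := by
      intro b hb
      unfold slowB pairs Cross at hb
      simp only [Finset.mem_filter, Finset.mem_univ, true_and] at hb
      obtain ⟨hb1, hb2⟩ := hb
      show WW (x b.1) (x b.2) = _
      unfold WW
      by_cases h1 : b.1 = u ∨ b.1 = v
      · have h2 : ¬ (b.2 = u ∨ b.2 = v) := fun h => hb2 ⟨fun _ => h, fun _ => h1⟩
        push Not at h2
        have h3 := hx b.2 h2.1 h2.2
        have h4 : x b.1 = M + 1 := by rcases h1 with h | h <;> rw [h] <;> assumption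
        rw [h4, if_neg (by omega), max_eq_left h3.le]
      · have h2 : b.2 = u ∨ b.2 = v := by
          by_contra h
          exact hb2 ⟨fun h' => absurd h' h1, fun h' => absurd h' h⟩
        push Not at h1
        have h3 := hx b.1 h1.1 h1.2
        have h4 : x b.2 = M + 1 := by rcases h2 with h | h <;> rw [h] <;> assumption
        rw [h4, if_neg (by omega), max_eq_right h3.le]
    have hA : cc M ≤ w p := by
      unfold fastA pairs Cross at hp
      simp only [Finset.mem_filter, Finset.mem_univ, true_and, not_not] at hp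
      obtain ⟨hp1, hp2⟩ := hp
      show _ ≤ WW (x p.1) (x p.2)
      unfold WW
      by_cases h1 : p.1 = u ∨ p.1 = v
      · have h2 := hp2.1 h1
        have h3 : x p.1 = M + 1 := by rcases h1 with h | h <;> rw [h] <;> assumption
        have h4 : x p.2 = M + 1 := by rcases h2 with h | h <;> rw [h] <;> assumption
        rw [h3, h4, if_pos rfl]
        exact cc_le_one _
      · have h2 : ¬ (p.2 = u ∨ p.2 = v) := fun h => h1 (hp2.2 h)
        push Not at h1 h2
        have h3 := hx p.1 h1.1 h1.2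
        have h4 := hx p.2 h2.1 h2.2
        split_ifs
        · exact cc_le_one _
        · refine cc_anti ?_
          omega
    rw [Finset.sum_congr rfl hB, Finset.sum_const, nsmul_eq_mul, cc_succ]
    calc ((slowB u v).card : ℝ) * ((1 / 8 : ℝ) ^ (2 * M + 1) * cc M)
        ≤ (n : ℝ) ^ 2 * ((1 / 8 : ℝ) ^ (2 * M + 1) * cc M) :=
          mul_le_mul_of_nonneg_right (hcardn _) (by have := cc_pos M; positivity)
      _ = ε * cc M := by rw [hε]; ring
      _ ≤ ε * w p := mul_le_mul_of_nonneg_left hA hε0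

/-- one half, as an element of the unit interval -/
noncomputable def hf : unitInterval := ⟨1 / 2, by norm_num, by norm_num⟩

lemma hf_ne : hf ≠ 0 := by
  intro h
  have := congrArg Subtype.val h
  norm_num [hf] at this

/-- the type distribution: `mu {i} = 2^(-(i+1))` -/
noncomputable def mu : Measure ℕ := ProbabilityTheory.geometricMeasure hf

instance : IsProbabilityMeasure mu := by unfold mu; infer_instance

lemma mu_singleton (m : ℕ) : mu.real {m} = (1 / 2 : ℝ) ^ (m + 1) := by
  unfold mu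
  rw [ProbabilityTheory.geometricMeasure_real_singleton hf_ne]
  have : (hf : ℝ) = 1 / 2 := rfl
  rw [this, pow_succ]
  norm_num

lemma mu_Iio (m : ℕ) : mu.real (Set.Iio m) = 1 - (1 / 2 : ℝ) ^ m := by
  induction m with
  | zero => simp
  | succ m ih =>
    have : Set.Iio (m + 1) = Set.Iio m ∪ {m} := by
      ext a; simp
    rw [this, measureReal_union (by simp) (by simp), ih, mu_singleton, pow_succ]
    ring

lemma WW_connected (A : Set ℕ) (hA : MeasurableSet A) (h0 : 0 < mu A) (h1 : mu A < 1) :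
    0 < ∫ p in A ×ˢ Aᶜ, WW p.1 p.2 ∂(mu.prod mu) := by
  have hint : Integrable (fun p : ℕ × ℕ => WW p.1 p.2) ((mu.prod mu).restrict (A ×ˢ Aᶜ)) := by
    refine Integrable.of_bound (C := 1) (Measurable.of_discrete.aestronglyMeasurable) ?_
    refine Filter.Eventually.of_forall fun p => ?_
    rw [Real.norm_eq_abs, abs_of_nonneg (WW_pos _ _).le]
    exact WW_le_one _ _
  rw [integral_pos_iff_support_of_nonneg (fun p => (WW_pos _ _).le) hint]
  have : Function.support (fun p : ℕ × ℕ => WW p.1 p.2) = Set.univ := by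
    ext p
    simp only [Function.mem_support, Set.mem_univ, iff_true]
    exact (WW_pos _ _).ne'
  rw [this, Measure.restrict_apply_univ, Measure.prod_prod]
  refine ENNReal.mul_pos h0.ne' ?_
  rw [prob_compl_eq_one_sub hA]
  exact (tsub_pos_of_lt h1).ne'

/-- the boxes -/
def box (n m : ℕ) (u v : Fin n) : Set (Fin n → ℕ) :=
  Set.univ.pi (fun z => if z = u ∨ z = v then {m} else Set.Iio m)

lemma mem_box {n m : ℕ} {u v : Fin n} {x : Fin n → ℕ} :
    x ∈ box n m u v ↔ x u = m ∧ x v = m ∧ ∀ z, z ≠ u → z ≠ v → x z < m := by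
  unfold box
  rw [Set.mem_univ_pi]
  constructor
  · intro h
    refine ⟨by simpa using h u, by simpa using h v, fun z h1 h2 => ?_⟩
    simpa [h1, h2] using h z
  · rintro ⟨h1, h2, h3⟩ z
    by_cases hz : z = u ∨ z = v
    · rw [if_pos hz]
      rcases hz with rfl | rfl
      · exact h1
      · exact h2
    · rw [if_neg hz]
      push Not at hz
      exact h3 z hz.1 hz.2

lemma box_measure {n m : ℕ} {u v : Fin n} (huv : u ≠ v) :
    (Measure.pi (fun _ : Fin n => mu)).real (box n m u v) =
      ((1 / 2 : ℝ) ^ (m + 1)) ^ 2 * (1 - (1 / 2 : ℝ) ^ m) ^ (n - 2) := by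
  unfold box
  rw [measureReal_def, Measure.pi_pi, ENNReal.toReal_prod]
  have hpt : ∀ z : Fin n, (mu (if z = u ∨ z = v then ({m} : Set ℕ) else Set.Iio m)).toReal =
      if z ∈ ({u, v} : Finset (Fin n)) then (1 / 2 : ℝ) ^ (m + 1) else (1 - (1 / 2 : ℝ) ^ m) := by
    intro z
    simp only [Finset.mem_insert, Finset.mem_singleton]
    split_ifs
    · rw [← mu_singleton]; rfl
    · rw [← mu_Iio]; rfl
  rw [Finset.prod_congr rfl (fun z _ => hpt z), Finset.prod_ite, Finset.prod_const, Finset.prod_const]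
  have hc : (Finset.univ.filter (fun z : Fin n => z ∈ ({u, v} : Finset (Fin n)))).card = 2 := by
    rw [Finset.filter_mem_eq_inter, Finset.univ_inter, Finset.card_pair huv]
  have hc2 : (Finset.univ.filter (fun z : Fin n => ¬ z ∈ ({u, v} : Finset (Fin n)))).card = n - 2 := by
    have h := Finset.card_filter_add_card_filter_not (s := (Finset.univ : Finset (Fin n)))
      (fun z : Fin n => z ∈ ({u, v} : Finset (Fin n)))
    rw [hc, Finset.card_univ, Fintype.card_fin] at h
    omega
  rw [hc, hc2]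

lemma card_pairs (n : ℕ) : n * n - n ≤ 2 * (pairs n).card := by
  have h1 : (Finset.univ : Finset (Fin n)).offDiag ⊆ pairs n ∪ (pairs n).image Prod.swap := by
    intro p hp
    rw [Finset.mem_offDiag] at hp
    rcases lt_or_gt_of_ne hp.2.2 with h | h
    · refine Finset.mem_union_left _ ?_
      simp [pairs, h]
    · refine Finset.mem_union_right _ ?_
      rw [Finset.mem_image]
      exact ⟨p.swap, by simp [pairs, h], by simp⟩
  have h2 := Finset.card_le_card h1
  rw [Finset.offDiag_card, Finset.card_univ, Fintype.card_fin] at h2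
  have h3 := Finset.card_union_le (pairs n) ((pairs n).image Prod.swap)
  have h4 : ((pairs n).image Prod.swap).card ≤ (pairs n).card := Finset.card_image_le
  omega

/-- the good event -/
def Ev (n m : ℕ) : Set (Fin n → ℕ) := ⋃ p ∈ pairs n, box n m p.1 p.2

lemma Ev_measure (M : ℕ) : 1 / 64 ≤ (Measure.pi (fun _ : Fin (2 ^ (M + 1)) => mu)).real
    (Ev (2 ^ (M + 1)) (M + 1)) := by
  unfold Ev
  set n := 2 ^ (M + 1) with hn
  rw [measureReal_biUnion_finset]
  · have hpt : ∀ p ∈ pairs n, (Measure.pi (fun _ : Fin n => mu)).real (box n (M + 1) p.1 p.2) =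
        ((1 / 2 : ℝ) ^ (M + 1 + 1)) ^ 2 * (1 - (1 / 2 : ℝ) ^ (M + 1)) ^ (n - 2) := by
      intro p hp
      unfold pairs at hp
      exact box_measure (Finset.mem_filter.1 hp).2.ne
    rw [Finset.sum_congr rfl hpt, Finset.sum_const, nsmul_eq_mul]
    have hq0 : (0 : ℝ) ≤ 1 - (1 / 2 : ℝ) ^ (M + 1) := by
      have : (1 / 2 : ℝ) ^ (M + 1) ≤ 1 := pow_le_one₀ (by norm_num) (by norm_num)
      linarith
    have hq1 : 1 - (1 / 2 : ℝ) ^ (M + 1) ≤ 1 := by
      have : (0 : ℝ) < (1 / 2 : ℝ) ^ (M + 1) := by positivity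
      linarith
    have hpow : (1 / 4 : ℝ) ≤ (1 - (1 / 2 : ℝ) ^ (M + 1)) ^ (n - 2) := by
      have h1 : (1 - (1 / 2 : ℝ) ^ (M + 1)) ^ n ≤ (1 - (1 / 2 : ℝ) ^ (M + 1)) ^ (n - 2) :=
        pow_le_pow_of_le_one hq0 hq1 (Nat.sub_le _ _)
      refine le_trans ?_ h1
      have h2 : n = 2 ^ M * 2 := by rw [hn, pow_succ]
      rw [h2, pow_mul]
      have h3 : (1 / 2 : ℝ) ≤ (1 - (1 / 2 : ℝ) ^ (M + 1)) ^ (2 ^ M) := by
        have hb := one_add_mul_le_pow (a := -(1 / 2 : ℝ) ^ (M + 1)) (by linarith) (2 ^ M)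
        have h4 : (1 : ℝ) + ((2 ^ M : ℕ) : ℝ) * -(1 / 2 : ℝ) ^ (M + 1) = 1 / 2 := by
          push_cast
          rw [pow_succ]
          have : (2 : ℝ) ^ M * (1 / 2) ^ M = 1 := by
            rw [← mul_pow]; norm_num
          nlinarith
        rw [h4] at hb
        have h5 : (1 : ℝ) + -(1 / 2 : ℝ) ^ (M + 1) = 1 - (1 / 2 : ℝ) ^ (M + 1) := by ring
        rw [h5] at hb
        exact hb
      calc (1 / 4 : ℝ) = (1 / 2) ^ 2 := by norm_num
        _ ≤ _ := pow_le_pow_left₀ (by norm_num) h3 2
    have hcard : ((n : ℝ) * n - n) / 2 ≤ ((pairs n).card : ℝ) := by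
      have h1 := card_pairs n
      have h2 : ((n * n : ℕ) : ℝ) ≤ ((2 * (pairs n).card + n : ℕ) : ℝ) := by
        have : n * n ≤ 2 * (pairs n).card + n := by omega
        exact_mod_cast this
      push_cast at h2
      linarith
    have hpn : ((1 / 2 : ℝ) ^ (M + 1 + 1)) ^ 2 = 1 / (4 * (n : ℝ) ^ 2) := by
      rw [hn]
      push_cast
      rw [pow_succ (1 / 2 : ℝ) (M + 1), one_div, inv_pow]
      field_simp
      norm_num
    have hn2 : (2 : ℝ) ≤ n := by
      rw [hn]
      push_cast
      calc (2 : ℝ) = 2 ^ 1 := by norm_num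
        _ ≤ 2 ^ (M + 1) := pow_le_pow_right₀ (by norm_num) (by omega)
    rw [hpn]
    calc (1 / 64 : ℝ) ≤ (((n : ℝ) * n - n) / 2) * (1 / (4 * (n : ℝ) ^ 2) * (1 / 4)) := by
          have h7 : (((n : ℝ) * n - n) / 2) * (1 / (4 * (n : ℝ) ^ 2) * (1 / 4)) =
              (1 - 1 / n) / 32 := by
            field_simp
            ring
          rw [h7]
          have h8 : 1 / (n : ℝ) ≤ 1 / 2 := by
            apply one_div_le_one_div_of_le (by norm_num) hn2
          linarith
      _ ≤ ((pairs n).card : ℝ) * (1 / (4 * (n : ℝ) ^ 2) * (1 - (1 / 2 : ℝ) ^ (M + 1)) ^ (n - 2)) := by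
          refine mul_le_mul hcard ?_ (by positivity) (by positivity)
          exact mul_le_mul_of_nonneg_left hpow (by positivity)
  · intro p hp q hq hpq
    show Disjoint (box n (M + 1) p.1 p.2) (box n (M + 1) q.1 q.2)
    rw [Set.disjoint_left]
    intro x hx1 hx2
    rw [mem_box] at hx1 hx2
    unfold pairs at hp hq
    simp only [Finset.coe_filter, Finset.mem_univ, true_and, Set.mem_ofPred_eq] at hp hq
    apply hpq
    have e1 : q.1 = p.1 ∨ q.1 = p.2 := by
      by_contra hc
      push Not at hc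
      have := hx1.2.2 _ hc.1 hc.2
      rw [hx2.1] at this
      omega
    have e2 : q.2 = p.1 ∨ q.2 = p.2 := by
      by_contra hc
      push Not at hc
      have := hx1.2.2 _ hc.1 hc.2
      rw [hx2.2.1] at this
      omega
    rcases e1 with e1 | e1 <;> rcases e2 with e2 | e2
    · exact absurd (e1.trans e2.symm) hq.ne
    · exact Prod.ext e1.symm e2.symm
    · rw [e1, e2] at hq
      exact absurd (hq.trans hp) (lt_irrefl _)
    · exact absurd (e1.trans e2.symm) hq.ne
  · intro p _
    unfold box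
    exact MeasurableSet.univ_pi fun z => MeasurableSet.of_discrete

lemma integral_II_le {M : ℕ} (hM : 1 ≤ M) :
    ∫ x, II (2 ^ (M + 1)) x ∂(Measure.pi (fun _ : Fin (2 ^ (M + 1)) => mu)) ≤ 1 - 1 / 128 := by
  set P := Measure.pi (fun _ : Fin (2 ^ (M + 1)) => mu) with hP
  by_cases hint : Integrable (II (2 ^ (M + 1))) P
  · have hEvm : MeasurableSet (Ev (2 ^ (M + 1)) (M + 1)) := by
      unfold Ev
      refine Finset.measurableSet_biUnion _ fun p _ => ?_
      unfold box
      exact MeasurableSet.univ_pi fun z => MeasurableSet.of_discrete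
    have hle : ∀ x, II (2 ^ (M + 1)) x ≤
        1 - (Ev (2 ^ (M + 1)) (M + 1)).indicator (fun _ => (1 / 2 : ℝ)) x := by
      intro x
      by_cases hx : x ∈ Ev (2 ^ (M + 1)) (M + 1)
      · rw [Set.indicator_of_mem hx]
        unfold Ev at hx
        simp only [Set.mem_iUnion] at hx
        obtain ⟨p, hp, hx⟩ := hx
        rw [mem_box] at hx
        unfold pairs at hp
        have := II_le_half hM rfl x p.1 p.2 (Finset.mem_filter.1 hp).2 hx.1 hx.2.1 hx.2.2
        linarith
      · rw [Set.indicator_of_notMem hx]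
        have := II_le_one _ x
        linarith
    have hi2 : Integrable ((Ev (2 ^ (M + 1)) (M + 1)).indicator (fun _ => (1 / 2 : ℝ))) P :=
      (integrable_const _).indicator hEvm
    refine le_trans (integral_mono hint ((integrable_const 1).sub hi2) hle) ?_
    simp only [Pi.sub_apply]
    rw [integral_sub (integrable_const _) hi2, integral_indicator_const _ hEvm, integral_const]
    have := Ev_measure M
    rw [← hP] at this
    simp only [probReal_univ, smul_eq_mul]
    linarith
  · rw [integral_undef hint]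
    norm_num

end Pool.Agent.Lib_f2f003
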